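import Pool.Agent.Lib_MP_ea0635_lc.Defs
import Pool.Agent.Lib_MP_ea0635_lc.Bounding
import Pool.Agent.Lib_MP_ea0635_lc.Mathias
import Pool.Agent.Lib_MP_ea0635_lc.Iteration

/-!
# Two-step iterations can add half-Cohen reals

Mathias forcing followed by the infinitely equal forcing below the Mathias real.
-/

set_option autoImplicit false

open Pool.Agent.HalfCohen

namespace Pool.Agent.Results.MP_ea0635_lc.MathiasInfEq

/-- There are a forcing notion `P` which adds no half-Cohen real and a `P`-name `Q` for a forcing
notion which is forced to add no half-Cohen real (over `V[G]`), such that the two-step iteration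
`P ∗ Q` adds a half-Cohen real over `V`; in fact a single name is forced by all conditions of
`P ∗ Q` to be a half-Cohen real. -/
theorem result : ∃ (P : Type) (_ : PartialOrder P) (Q : PosetName P),
    ¬ AddsHalfCohen P ∧ ForcesNoHalfCohen Q ∧ AddsHalfCohen (Iter Q) ∧
      ∃ c : RealName (Iter Q), ∀ a : Iter Q, ForcesHalfCohen a c := by
  have : Nonempty Mathias := ⟨⟨∅, Set.univ, Set.infinite_univ, by simp⟩⟩
  exact ⟨Mathias, inferInstance, infEq Mathias.bound, Mathias.not_addsHalfCohen,
    forcesNoHalfCohen_infEq _, addsHalfCohen_iter _ Mathias.bound_dominating,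
    genericReal _, forcesHalfCohen_generic _ Mathias.bound_dominating⟩

end Pool.Agent.Results.MP_ea0635_lc.MathiasInfEq
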